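import Pool.Agent.L7h55.CC.Win
import Pool.Agent.N733.TG.K
import Pool.Agent.N760.IT.C
import Pool.Agent.N375.AV.D

/-!
# ALL cubic residue symbols of ALL moduli near the values of arithmetic functions

A modulus `q` is good for `δ, κ, c, A` if for ALL cubic residue symbols modulo `q` (if `3` does not divide `q`, all primitive
cubic characters modulo `q` are among them) we have square-root cancellation in all residue classes modulo `k' ≤ X ^ A`,
twisted by `n ^ (-i t)`, `|t| ≤ X ^ A`, in all intervals in `[1, X]`, for all `X` with `q ^ κ ≤ X ≤ q ^ c`.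

For every `δ > 0` and `A ≥ 0` there is `c > 0` such that for every `κ > 0` with `2 κ A ≤ 1`, all `G` with steps at least `a > 0`
and growth at most `v ^ d` (for example `G v = v`), and all `θ ≥ 0` with `d (1 - 2 κ A) + θ < 1`:

1. Let `f` be multiplicative, positive, of polynomial growth, with `f p ≤ M p` for the large primes `p` and different values at
   different large primes (the identity, Euler's function `φ`, the sum of the divisors). There is `K(a)` tending to infinity
   such that for almost all natural numbers `a`, for all `k ≤ K(a)`, with `v = f(φ_k(a))`, `φ_k` the `k`-th iterate of Euler's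
   function, ALL moduli `q` with `|q - G v| ≤ v ^ θ` are good.
2. For all `a ≤ N` but at most `N / (log N) ^ U`, for every `U`, ALL moduli `q` with `|q - G (f a)| ≤ (f a) ^ θ` are good.
3. Let `F = f_1 ∘ ⋯ ∘ f_k`, each `f_i` dominated by the largest prime factor (additive functions with `f (q^j) ≤ C q^j`,
   injective at the large primes, the largest prime factor, Kempner's function). For all `a ≤ N` but at most
   `K N exp (- c' (log N) ^ (1 / (k + 1)))`, ALL moduli `q` with `|q - G (F a)| ≤ F(a) ^ θ` are good.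

The values of these functions are taken with very large multiplicities; so this does not follow from the number
`O(Q ^ (1 - 2 κ A + ε))` of the moduli up to `Q` which are not good. In the result `MultiplicativeValues` of this page there
are two parameters and single characters (the symbol of `m_0 + m_1 ω`); here there is one parameter and all characters.
-/

set_option autoImplicit false

namespace Pool.Agent.Results.MP_081200_nt.AllSymbolsArithmeticFunctions

open Finset Filter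
open Pool.Agent.Results.MP_081200_nt.FewDigitCubicCharacters (Eis nm residue)
open Pool.Agent.Results.MP_081200_nt.GenericLinearForms (progressionSum)
open Pool.Agent.N733.TG (LM Expanding lm_totient lm_sigma expanding_pow keep_good_nat)
open Pool.Agent.N760.IT (orb lm_id orbit_good_nat)
open Pool.Agent.N826.IT.Orb (AlmostAll almostAll_mono)
open Pool.Agent.N375.AV (PD comp good_nat pd_additive pd_sopfr pd_largest pd_kempner)
open Pool.Agent.L7h55.CC (mod_count good_zero)

/-- `ψ` is the cubic residue symbol of an Eisenstein integer of norm `q`, given by its factorization `P` into primes (`residue π n`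
is the cubic residue symbol of `n` modulo the prime `π`) -/
def CubicSymbol (q : ℕ) (ψ : DirichletCharacter ℂ q) : Prop :=
  ∃ P : Multiset Eis, (∀ π ∈ P, Prime π) ∧ (nm P.prod).natAbs = q ∧
    ∀ n : ℕ, n.Coprime q → ψ (n : ZMod q) = (P.map (fun π => residue π n)).prod

/-- If `3` does not divide `q`, then ALL cubic residue symbols modulo `q` have small sums over progressions (twisted by
`n ^ (-i t)`) in intervals up to `X` for all `X` between `q ^ κ` and `q ^ c` -/
def GoodModulus (δ κ c : ℝ) (A q : ℕ) : Prop :=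
  ¬ 3 ∣ q → ∀ ψ : DirichletCharacter ℂ q, CubicSymbol q ψ →
    ∀ X : ℕ, (q : ℝ) ^ κ ≤ X → (X : ℝ) ≤ (q : ℝ) ^ c → ∀ k a : ℕ, 1 ≤ k →
      k ≤ X ^ A → ∀ t : ℝ, |t| ≤ (X : ℝ) ^ A → ∀ M M' : ℕ, M' ≤ X →
        ‖progressionSum ψ k a t M M'‖ ≤ (X : ℝ) ^ (1 / 2 + δ)

/-- all moduli `q` with `|q - G v| ≤ v ^ θ` are good -/
def GoodWindow (δ κ c θ : ℝ) (A : ℕ) (G : ℕ → ℝ) (v : ℕ) : Prop :=
  ∀ q : ℕ, |(q : ℝ) - G v| ≤ (v : ℝ) ^ θ → GoodModulus δ κ c A q

/-- **Theorem.** For `δ > 0` and `A ≥ 0` there is `c > 0` such that for every `κ > 0` with `2 κ A ≤ 1`, all `G` with steps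
`≥ a > 0` and growth at most `v^d` and all `θ ≥ 0` with `d (1 - 2 κ A) + θ < 1` the statements 1-3 of the introduction hold;
and examples of the functions. -/
theorem result :
    (∀ δ : ℝ, 0 < δ → ∀ A : ℕ, ∃ c : ℝ, 0 < c ∧ ∀ κ : ℝ, 0 < κ → 2 * κ * A ≤ 1 →
      ∀ (G : ℕ → ℝ) (d : ℝ), Expanding G d → ∀ θ : ℝ, 0 ≤ θ → d * (1 - 2 * κ * A) + θ < 1 →
        (∀ f : ℕ → ℕ, LM f →
          (∃ K : ℕ → ℕ, Tendsto K atTop atTop ∧
            AlmostAll (fun a => ∀ k ≤ K a, GoodWindow δ κ c θ A G (orb f k a))) ∧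
          ∀ U : ℕ, ∃ N₀ : ℕ, ∀ N : ℕ, N₀ ≤ N →
            ({a : ℕ | 1 ≤ a ∧ a ≤ N ∧ ¬ GoodWindow δ κ c θ A G (f a)}.ncard : ℝ) ≤ N / Real.log N ^ U) ∧
        ∀ fs : List (ℕ → ℕ), (∀ f ∈ fs, PD f) → ∃ c' K : ℝ, 0 < c' ∧ ∀ N : ℕ, 1 ≤ N →
          ({a : ℕ | 1 ≤ a ∧ a ≤ N ∧ ¬ GoodWindow δ κ c θ A G (comp fs a)}.ncard : ℝ) ≤
            K * N * Real.exp (-(c' * Real.log N ^ ((1 : ℝ) / (fs.length + 1))))) ∧
    (LM (fun m => m) ∧ LM Nat.totient ∧ LM (fun m => ∑ d ∈ m.divisors, d)) ∧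
    ((∀ f : ℕ → ℕ, (∀ a b : ℕ, Nat.Coprime a b → f (a * b) = f a + f b) →
      (∃ C : ℕ, ∀ q j : ℕ, q.Prime → 1 ≤ j → f (q ^ j) ≤ C * q ^ j) →
      (∃ P : ℕ, ∀ p q : ℕ, p.Prime → q.Prime → P ≤ p → P ≤ q → f p = f q → p = q) → PD f) ∧
      PD (fun n => n.primeFactorsList.sum) ∧ PD (fun n => n.primeFactors.sup id) ∧
      PD (fun n => sInf {k : ℕ | n ∣ k.factorial})) ∧
    ∀ α d : ℝ, 0 < α → 1 ≤ d → Expanding (fun v => α * (v : ℝ) ^ d) d := by
  refine ⟨fun δ hδ A => ?_, ⟨lm_id, lm_totient, lm_sigma⟩,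
    ⟨fun f h1 h2 h3 => pd_additive h1 h2 h3, pd_sopfr, pd_largest, pd_kempner⟩, fun α d hα hd => expanding_pow hα hd⟩
  obtain ⟨c, hc, h⟩ := mod_count hδ A
  refine ⟨c, hc, fun κ hκ hκA G d hG θ hθ h1 => ?_⟩
  have hP := h κ hκ hκA
  have hs : 0 ≤ 1 - 2 * κ * A := by linarith
  have key : ∀ v : ℕ, (∀ n : ℕ, 1 ≤ n → True → |(n : ℝ) - G v| ≤ (v : ℝ) ^ θ → GoodModulus δ κ c A n) →
      GoodWindow δ κ c θ A G v := by
    intro v hv q hq
    rcases Nat.eq_zero_or_pos q with h0 | h0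
    · rw [h0]
      exact good_zero _ _ _ _
    · exact hv q h0 trivial hq
  refine ⟨fun f hf => ⟨?_, fun U => ?_⟩, fun fs hfs => ?_⟩
  · obtain ⟨K, hK, hK2⟩ := orbit_good_nat (fun _ => True) (fun q => GoodModulus δ κ c A q) hf hG hs hθ h1 hP
    exact ⟨K, hK, almostAll_mono hK2 fun a ha k hk => key _ (ha k hk)⟩
  · obtain ⟨N₀, hN₀⟩ := keep_good_nat (fun _ => True) (fun q => GoodModulus δ κ c A q) hf hG hs hθ h1 hP U
    refine ⟨N₀, fun N hN => le_trans (Nat.cast_le.2 (Set.ncard_le_ncard ?_ ?_)) (hN₀ N hN)⟩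
    · rintro a ⟨g1, g2, g3⟩
      exact ⟨g1, g2, fun g4 => g3 (key _ g4)⟩
    · exact (Set.finite_Icc 1 N).subset fun a ha => ⟨ha.1, ha.2.1⟩
  · obtain ⟨c', K, hc', hK⟩ := good_nat (fun _ => True) (fun q => GoodModulus δ κ c A q) fs hfs hG hs hθ h1 hP
    refine ⟨c', K, hc', fun N hN => le_trans (Nat.cast_le.2 (Set.ncard_le_ncard ?_ ?_)) (hK N hN)⟩
    · rintro a ⟨g1, g2, g3⟩
      exact ⟨g1, g2, fun g4 => g3 (key _ g4)⟩
    · exact (Set.finite_Icc 1 N).subset fun a ha => ⟨ha.1, ha.2.1⟩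

end Pool.Agent.Results.MP_081200_nt.AllSymbolsArithmeticFunctions
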