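import Pool.Agent.L7h55.CC.Win

/-!
# Windows of moduli ALL of whose cubic residue symbols have small short sums

The earlier results of the page treat pairs `(m_0, m_1)`, that is, single characters: the cubic residue symbol of
`m_0 + m_1 ω`. The question asks for a bound for all cubic characters of a modulus. Here the windows consist of MODULI `q`,
and for ALL cubic residue symbols modulo `q` (if `3` does not divide `q`, all primitive cubic characters modulo `q` are among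
them) we get square-root cancellation in all residue classes modulo `k' ≤ X ^ A`, twisted by `n ^ (-i t)`, `|t| ≤ X ^ A`, in all
intervals in `[1, X]`, for all `X` with `q ^ κ ≤ X ≤ q ^ c` (`GoodModulus δ κ c A q`).

For every `δ > 0` and `A ≥ 0` there is `c > 0` such that for every `κ > 0` with `2 κ A ≤ 1`:

1. Let `f_n` be positive functions on `(a, ∞)`, `a ≥ 0`, such that `f_n(x) / x` is nondecreasing, of exponent of convergence at
   most `τ` (`v_n x`, `x ^ (v_n)`, orbits of maps `g` with `g(x) > x` and `g(x) / x` nondecreasing), and `θ < 1`. For all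
   `x > a` outside a set of Hausdorff dimension at most `(1 - 2 κ A + τ) / (1 - θ)` (almost all `x` if `θ + τ < 2 κ A`) and all
   large `n` ALL moduli `q` with `|q - f_n(x)| ≤ c' f_n(x) ^ θ` are good.
2. The same for linear forms `∑ α_j v_(i,j)` of a family of vectors of exponent `τ` in `ℝ^k`, outside a set of dimension
   `k - 1 + (1 - 2 κ A + τ) / (1 - θ)`.
3. Let `G` have steps at least `a > 0` and growth at most `v ^ d` (for example `v`). For all `α` in `ℝ^M` outside a set of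
   dimension at most `(M + d (1 - 2 κ A) + θ) / (1 + σ)`, for all large `v` with `‖v α_j - β_j‖ ≤ b v ^ (-σ)` for all `j`, ALL
   moduli `q` with `|q - G v| ≤ v ^ θ` are good (for `σ = 1 / M`, `β = 0`: best simultaneous approximations; convergents).
4. If `d (1 - 2 κ A) + θ < 1` the same holds for the windows `|q - G |k|| ≤ |k| ^ θ` along the members `k` of random and metric
   sequences (structure `RandomAndMetric`).

Proof: at most `O(Q ^ (1 - 2 κ A + ε))` moduli up to `Q` are not good, because every Eisenstein integer has an associate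
`m_0 + m_1 ω` with `m_0, m_1 ≥ 0`, and `FewDigitCubicCharacters`; then the transfer theorems of the libraries of helper482,
helper251, helper671 and helper918.
-/

set_option autoImplicit false

namespace Pool.Agent.Results.MP_081200_nt.AllSymbolsInWindows

open Finset Filter
open Pool.Agent.Results.MP_081200_nt.FewDigitCubicCharacters (Eis nm residue)
open Pool.Agent.Results.MP_081200_nt.GenericLinearForms (progressionSum)
open Pool.Agent.N251.LF (Fam Sq linear_windows)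
open Pool.Agent.N671.DA (Solves Expanding expanding_pow approx_windows)
open Pool.Agent.N918.MS (RandomAndMetric randomAndMetric)
open Pool.Agent.L7h55.CC (thin_mod aa_near ThinN)

/-- `ψ` is the cubic residue symbol of an Eisenstein integer of norm `q`, given by its factorization `P` into primes (`residue π n`
is the cubic residue symbol of `n` modulo the prime `π`) -/
def CubicSymbol (q : ℕ) (ψ : DirichletCharacter ℂ q) : Prop :=
  ∃ P : Multiset Eis, (∀ π ∈ P, Prime π) ∧ (nm P.prod).natAbs = q ∧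
    ∀ n : ℕ, n.Coprime q → ψ (n : ZMod q) = (P.map (fun π => residue π n)).prod

/-- If `3` does not divide `q`, then ALL cubic residue symbols modulo `q` have small sums over progressions (twisted by
`n ^ (-i t)`) in intervals up to `X` for all `X` between `q ^ κ` and `q ^ c` -/
def GoodModulus (δ κ c : ℝ) (A q : ℕ) : Prop :=
  ¬ 3 ∣ q → ∀ ψ : DirichletCharacter ℂ q, CubicSymbol q ψ →
    ∀ X : ℕ, (q : ℝ) ^ κ ≤ X → (X : ℝ) ≤ (q : ℝ) ^ c → ∀ k a : ℕ, 1 ≤ k →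
      k ≤ X ^ A → ∀ t : ℝ, |t| ≤ (X : ℝ) ^ A → ∀ M M' : ℕ, M' ≤ X →
        ‖progressionSum ψ k a t M M'‖ ≤ (X : ℝ) ^ (1 / 2 + δ)

/-- the functions `f n` are positive on `(a, ∞)`, `a ≥ 0`, and `f n x / x` is nondecreasing there -/
def Starshaped (a : ℝ) (f : ℕ → ℝ → ℝ) : Prop :=
  0 ≤ a ∧ ∀ n : ℕ, ∀ x y : ℝ, a < x → x ≤ y → 0 < f n x ∧ f n x / x ≤ f n y / y

/-- for each `x > a` the exponent of convergence of the sequence `f n x` is at most `τ` -/
def ExpLe (a : ℝ) (f : ℕ → ℝ → ℝ) (τ : ℝ) : Prop :=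
  ∀ x : ℝ, a < x → ∀ t : ℝ, τ < t → Summable (fun n : ℕ => (f n x) ^ (-t))

/-- all moduli `q` with `|q - G |k|| ≤ |k| ^ θ` are good -/
def GoodWindow (δ κ c θ : ℝ) (A : ℕ) (G : ℕ → ℝ) (k : ℤ) : Prop :=
  ∀ q : ℕ, |(q : ℝ) - G k.natAbs| ≤ (k.natAbs : ℝ) ^ θ → GoodModulus δ κ c A q

/-- **Theorem.** For `δ > 0` and `A ≥ 0` there is `c > 0` such that for every `κ > 0` with `2 κ A ≤ 1` the statements 1-4 of the
introduction hold; and examples of starshaped sequences, of families of vectors and of `G`. -/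
theorem result :
    (∀ δ : ℝ, 0 < δ → ∀ A : ℕ, ∃ c : ℝ, 0 < c ∧ ∀ κ : ℝ, 0 < κ → 2 * κ * A ≤ 1 →
      (∀ (a : ℝ) (f : ℕ → ℝ → ℝ) (τ θ : ℝ), Starshaped a f → 0 ≤ τ → ExpLe a f τ → θ < 1 →
        ∃ E : Set ℝ, dimH E ≤ ENNReal.ofReal ((1 - 2 * κ * A + τ) / (1 - θ)) ∧
          ∀ x : ℝ, a < x → x ∉ E → ∀ c' : ℝ, ∀ᶠ n in atTop, ∀ q : ℕ,
            |(q : ℝ) - f n x| ≤ c' * (f n x) ^ θ → GoodModulus δ κ c A q) ∧
      (∀ (k : ℕ) (ι : Type) (v : ι → Fin k → ℝ) (τ θ : ℝ), Fam v τ → 0 ≤ τ → θ < 1 →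
        ∃ E : Set (Fin k → ℝ), dimH E ≤ ENNReal.ofReal ((k : ℝ) - 1 + (1 - 2 * κ * A + τ) / (1 - θ)) ∧
          ∀ α, α ∉ E → ∀ c' : ℝ, {i | ¬ ∀ q : ℕ,
            |(q : ℝ) - ∑ j, α j * v i j| ≤ c' * ‖v i‖ ^ θ → GoodModulus δ κ c A q}.Finite) ∧
      (∀ (G : ℕ → ℝ) (d : ℝ), Expanding G d → ∀ (M : ℕ) (β : Fin M → ℝ) (σ θ : ℝ), 0 < σ → 0 ≤ θ → θ ≤ 1 →
        ∃ E : Set (Fin M → ℝ), dimH E ≤ ENNReal.ofReal ((M + (d * (1 - 2 * κ * A) + θ)) / (1 + σ)) ∧
          ∀ α, α ∉ E → ∀ b : ℝ, ∃ V : ℕ, ∀ v : ℕ, V ≤ v → Solves α β v (b * (v : ℝ) ^ (-σ)) →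
            ∀ q : ℕ, |(q : ℝ) - G v| ≤ (v : ℝ) ^ θ → GoodModulus δ κ c A q) ∧
      ∀ (G : ℕ → ℝ) (d : ℝ), Expanding G d → ∀ θ : ℝ, 0 ≤ θ → d * (1 - 2 * κ * A) + θ < 1 →
        RandomAndMetric (fun (_ : Unit) (k : ℤ) => GoodWindow δ κ c θ A G k)) ∧
    ((∀ (v : ℕ → ℝ) (τ : ℝ), (∀ n, 0 < v n) → (∀ t : ℝ, τ < t → Summable (fun n : ℕ => (v n) ^ (-t))) →
        Starshaped 0 (fun n x => v n * x) ∧ ExpLe 0 (fun n x => v n * x) τ) ∧
      (∀ v : ℕ → ℝ, (∀ n, 1 ≤ v n) → (∀ t : ℝ, 0 < t → Summable fun n : ℕ => Real.exp (-(t * v n))) →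
        Starshaped 1 (fun n x => x ^ (v n)) ∧ ExpLe 1 (fun n x => x ^ (v n)) 0) ∧
      ∀ (a : ℝ) (g : ℝ → ℝ), 0 ≤ a → (∀ x y : ℝ, a < x → x ≤ y → g x / x ≤ g y / y) → (∀ x : ℝ, a < x → x < g x) →
        Starshaped a (fun n x => g^[n] x) ∧ ExpLe a (fun n x => g^[n] x) 0) ∧
    ((∀ d : ℕ, 1 ≤ d → Fam (fun (n : ℕ) (j : Fin (d + 1)) => (n : ℝ) ^ (j : ℕ)) (1 / d)) ∧
      (∀ (k : ℕ) (b : Fin k → ℝ), (∀ j, 1 < b j) → Fam (fun (n : Fin k → ℕ) (j : Fin k) => b j ^ n j) 0) ∧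
      (∀ (k : ℕ) (a : Fin k → ℝ), (∀ j, 0 < a j) →
        Fam (fun (n : Fin k → ℕ) (j : Fin k) => (n j : ℝ) ^ a j) (∑ j, 1 / a j)) ∧
      ∀ (k : ℕ) (u : Fin k → ℕ → ℝ) (τ : Fin k → ℝ), (∀ j, Sq (u j) (τ j)) →
        Fam (fun (n : Fin k → ℕ) (j : Fin k) => u j (n j)) (∑ j, τ j)) ∧
    ∀ a d : ℝ, 0 < a → 1 ≤ d → Expanding (fun v => a * (v : ℝ) ^ d) d := by
  refine ⟨fun δ hδ A => ?_, ⟨Pool.Agent.R482.ST.ex_mul, Pool.Agent.R482.ST.ex_pow, Pool.Agent.R482.ST.ex_orbit⟩,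
    Pool.Agent.N251.LF.examples, fun a d ha hd => expanding_pow ha hd⟩
  obtain ⟨c, hc, h⟩ := thin_mod hδ A
  refine ⟨c, hc, fun κ hκ hκA => ?_⟩
  have hT : ThinN {q : ℕ | ¬ GoodModulus δ κ c A q} (1 - 2 * κ * A) := h κ hκ hκA
  have hs : 0 ≤ 1 - 2 * κ * A := by linarith
  refine ⟨fun a f τ θ hf hτ hv hθ => ?_, fun k ι v τ θ hv hτ hθ => ?_, fun G d hG M β σ θ hσ hθ hθ1 => ?_,
    fun G d hG θ hθ h1 => ?_⟩
  · obtain ⟨E, hE, hE2⟩ := Pool.Agent.R482.ST.windows {q : ℕ | ¬ GoodModulus δ κ c A q} (fun q : ℕ => (q : ℝ)) hf hτ hv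
      (s := 1 - 2 * κ * A) (θ := θ) hs hθ hT
    refine ⟨E, hE, fun x hx hxE c' => ?_⟩
    obtain ⟨n₀, hn⟩ := hE2 x hx hxE c'
    filter_upwards [eventually_ge_atTop n₀] with n hn1 q hq
    by_contra hcon
    exact absurd (hn n hn1 q hcon) (not_lt.2 hq)
  · obtain ⟨E, hE, hE2⟩ := linear_windows {q : ℕ | ¬ GoodModulus δ κ c A q} (fun q : ℕ => (q : ℝ)) v
      (s := 1 - 2 * κ * A) (θ := θ) hs hτ hθ hv hT
    refine ⟨E, hE, fun α hα c' => (hE2 α hα c').subset ?_⟩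
    intro i hi
    simp only [Set.mem_ofPred_eq] at hi ⊢
    push Not at hi
    obtain ⟨q, hq1, hq2⟩ := hi
    exact ⟨q, hq2, hq1⟩
  · obtain ⟨E, hE, hE2⟩ := approx_windows {q : ℕ | ¬ GoodModulus δ κ c A q} (fun q : ℕ => (q : ℝ)) hG
      (s := 1 - 2 * κ * A) (κ := θ) hs hθ hθ1 hT β hσ
    refine ⟨E, hE, fun α hα b => ?_⟩
    obtain ⟨V, hV⟩ := hE2 α hα b
    refine ⟨V, fun v hv h1 q hq => ?_⟩
    by_contra hcon
    exact hV v hv h1 q hcon hq
  · refine randomAndMetric _ fun _ U => ?_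
    obtain ⟨X₀, hX₀⟩ := aa_near hs hT hG hθ h1 U
    refine ⟨X₀, fun X hX => le_trans (le_of_eq ?_) (hX₀ X hX)⟩
    congr 2
    ext k
    simp only [Set.mem_ofPred_eq, not_not, GoodWindow]

end Pool.Agent.Results.MP_081200_nt.AllSymbolsInWindows
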