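import Pool.Agent.L7h69.CS.Thin
import Pool.Agent.N671.DA.Tup

/-!
# Square-root cancellation in short sums of the cubic residue symbols given by best approximation vectors

Let `α` be a real matrix with two rows and `n` columns, `β` in `ℝ^n` and `τ > 0`. We consider the integer vectors
`v = (v_0, v_1)` with `‖(v α)_j - β_j‖ ≤ c' |v| ^ (-τ)` for `j = 1, ..., n`, `‖x‖` the distance to the nearest integer and `|v|`
the maximum norm; for `β = 0`, `c' = 1` and `τ = 2 / n` they include all best approximation vectors of the system of the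
linear forms `v α`, by the theorem of Minkowski; this is a very sparse sequence, about `log T` vectors of norm at most `T`.

**Theorem.** For every `δ > 0` and every integer `A ≥ 0` there is `c > 0` such that for every `κ > 0` with `κ A ≤ 1`: for all
`α` outside a set of Hausdorff dimension at most `n + (n + 2 - 2 κ A) / (1 + τ)` and all `c'`, for all but finitely many `v` of
this kind the number `m_0 + m_1 ω`, `m_l = |v_l|`, has the following property: if its norm is not divisible by `3` and `ψ` is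
its cubic residue symbol, a Dirichlet character modulo the norm, then for all integers `X` with `M^κ ≤ X ≤ M^c`, `M` the
maximum of `m_0`, `m_1`, all residue classes `a` modulo an integer `k'` with `1 ≤ k' ≤ X ^ A` and all real `t` with
`|t| ≤ X ^ A` the sum `∑ ψ (n) n ^ (- i t)` over the integers `n ≡ a (mod k')` in any interval in `[1, X]` is at most
`X ^ (1 / 2 + δ)` in absolute value. For `τ ≥ 2 / n` and `A ≥ 1` the bound for the dimension is less than `2 n`; and so the
statement holds for almost all `α`.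

This does not follow from the number `O(T ^ (2 - 2 κ A + ε))` of the exceptional pairs up to `T` (starting result
`FewDigitCubicCharacters`). Proof: the matrices `α` with `‖(v α)_j - β_j‖ ≤ c' |v| ^ (-τ)` form neighbourhoods of parallel affine
subspaces, covered by cubes of side `|v| ^ (-1 - τ)` (tool `Pool.Agent.N671.DA` of helper671).
-/

set_option autoImplicit false

namespace Pool.Agent.Results.MP_081200_nt.GoodApproximations

open Pool.Agent.N671.DA (Near Thin approx_vectors)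
open Pool.Agent.Results.MP_081200_nt.GenericLinearForms (SmallSums)
open Pool.Agent.L7h69.CS (thin_pairs)

/-- the exceptional integer vectors are thin -/
lemma thin_signed (P : (Fin 2 → ℕ) → Prop) {s : ℝ} (h : ∀ ε : ℝ, 0 < ε → ∃ C : ℝ, 0 ≤ C ∧ ∀ X : ℝ, 1 ≤ X →
    {m : Fin 2 → ℕ | P m ∧ ∀ l, (m l : ℝ) ≤ X}.Finite ∧
      (({m : Fin 2 → ℕ | P m ∧ ∀ l, (m l : ℝ) ≤ X}.ncard : ℕ) : ℝ) ≤ C * X ^ (s + ε)) :
    Thin {q : Fin 2 → ℤ | P (fun i => (q i).natAbs)} s := by
  classical
  intro ε hε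
  obtain ⟨C, hC, h⟩ := h ε hε
  refine ⟨4 * C, fun X hX => ?_⟩
  obtain ⟨hfin, hcount⟩ := h X hX
  set S := {m : Fin 2 → ℕ | P m ∧ ∀ l, (m l : ℝ) ≤ X} with hS
  -- the four choices of the signs
  have hsub : {q : Fin 2 → ℤ | q ∈ {q : Fin 2 → ℤ | P (fun i => (q i).natAbs)} ∧ ∀ i, |(q i : ℝ)| ≤ X} ⊆
      (fun p : (Fin 2 → ℕ) × (Fin 2 → Bool) => fun i => if p.2 i then ((p.1 i : ℕ) : ℤ) else -((p.1 i : ℕ) : ℤ)) ''
        (S ×ˢ (Set.univ : Set (Fin 2 → Bool))) := by
    rintro q ⟨h1, h2⟩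
    refine ⟨(fun i => (q i).natAbs, fun i => decide (0 ≤ q i)), ⟨⟨h1, fun l => ?_⟩, Set.mem_univ _⟩, ?_⟩
    · have h3 := h2 l
      rw [show ((((q l).natAbs : ℕ)) : ℝ) = |(q l : ℝ)| by rw [Nat.cast_natAbs, Int.cast_abs]]
      exact h3
    · funext i
      by_cases h0 : 0 ≤ q i
      · simp only [h0, decide_true, if_true]
        omega
      · simp only [h0, decide_false, Bool.false_eq_true, if_false]
        omega
  have hfin2 : (S ×ˢ (Set.univ : Set (Fin 2 → Bool))).Finite := hfin.prod Set.finite_univ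
  have h4 := (Set.ncard_le_ncard hsub (hfin2.image _)).trans (Set.ncard_image_le hfin2)
  rw [Set.ncard_prod, Set.ncard_univ, Nat.card_eq_fintype_card] at h4
  have h5 : Fintype.card (Fin 2 → Bool) = 4 := by simp
  rw [h5] at h4
  calc (({q : Fin 2 → ℤ | q ∈ {q : Fin 2 → ℤ | P (fun i => (q i).natAbs)} ∧ ∀ i, |(q i : ℝ)| ≤ X}.ncard : ℕ) : ℝ)
      ≤ ((S.ncard * 4 : ℕ) : ℝ) := Nat.cast_le.2 h4
    _ = 4 * (S.ncard : ℝ) := by push_cast; ring
    _ ≤ 4 * (C * X ^ (s + ε)) := by linarith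
    _ = _ := by ring

/-- **Cubic residue symbols given by best approximation vectors.** For `δ > 0` and `A ≥ 0` there is `c > 0` such that for every
`κ > 0` with `κ A ≤ 1`, every `β` in `ℝ^n` and every `τ > 0`: for all real matrices `α` with two rows and `n` columns outside a
set of Hausdorff dimension at most `n + (n + 2 - 2 κ A) / (1 + τ)` and all `c'`, all large integer vectors `v = (v_0, v_1)` with
`‖(v α)_j - β_j‖ ≤ c' |v| ^ (-τ)` for all `j` satisfy `SmallSums δ κ c A (|v_0|, |v_1|)`. -/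
theorem result : ∀ δ : ℝ, 0 < δ → ∀ A : ℕ, ∃ c : ℝ, 0 < c ∧ ∀ κ : ℝ, 0 < κ → κ * A ≤ 1 →
    ∀ (n : ℕ) (β : Fin n → ℝ) (τ : ℝ), 0 < τ →
      ∃ E : Set (Fin 2 × Fin n → ℝ), dimH E ≤ ENNReal.ofReal (n + (n + (2 - 2 * κ * A)) / (1 + τ)) ∧
        ∀ α, α ∉ E → ∀ c' : ℝ, ∃ Q : ℝ, ∀ v : Fin 2 → ℤ, Q ≤ ‖v‖ → Near α β v (c' * ‖v‖ ^ (-τ)) →
          SmallSums δ κ c A (fun i => (v i).natAbs) := by
  intro δ hδ A
  obtain ⟨c, hc, h⟩ := thin_pairs hδ A
  refine ⟨c, hc, fun κ hκ hκA n β τ hτ => ?_⟩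
  have hW : Thin {q : Fin 2 → ℤ | ¬ SmallSums δ κ c A (fun i => (q i).natAbs)} (2 - 2 * (κ * A)) :=
    thin_signed (fun m => ¬ SmallSums δ κ c A m) (fun ε hε => h κ hκ hκA ε hε)
  obtain ⟨E, hE, hE2⟩ := approx_vectors (k := 2) (by norm_num) _ (by linarith) hW β hτ
  refine ⟨E, hE.trans (le_of_eq ?_), fun α hα c' => ?_⟩
  · congr 1
    push_cast
    ring
  · obtain ⟨Q, hQ⟩ := hE2 α hα c'
    refine ⟨Q, fun v hv h1 => ?_⟩
    by_contra hP
    exact hQ v hv h1 hP

end Pool.Agent.Results.MP_081200_nt.GoodApproximations
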