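import Pool.Agent.L7h69.CS.Thin
import Pool.Agent.N760.SC.A
import Pool.Agent.N733.TG.I

/-!
# Square-root cancellation in short sums of cubic residue symbols near the values of multiplicative functions

Let `F_0`, `F_1` be positive multiplicative functions of at most polynomial growth with `F_l p ≤ M p` for the large primes `p`
and different values at different large primes; for example Euler's function or the sum of the divisors.

**Theorem.** For every `δ > 0` and every integer `A ≥ 0` there is `c > 0` such that for every `κ > 0` with `κ A ≤ 1`, every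
`θ` with `0 ≤ θ < κ A` and every `U`: for all pairs `(a_0, a_1)` of positive integers up to `N`, but at most
`N ^ 2 / (log N) ^ U`, ALL natural numbers `m_0`, `m_1` with `|m_l - F_l(a_l)| ≤ F_l(a_l) ^ θ` have the following property: if
the norm of `m_0 + m_1 ω` is not divisible by `3` and `ψ` is the cubic residue symbol of `m_0 + m_1 ω`, a Dirichlet character
modulo the norm, then for all integers `X` with `M^κ ≤ X ≤ M^c`, `M` the maximum of `m_0`, `m_1`, all residue classes `a`
modulo an integer `k'` with `1 ≤ k' ≤ X ^ A` and all real `t` with `|t| ≤ X ^ A` the sum `∑ ψ (n) n ^ (- i t)` over the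
integers `n ≡ a (mod k')` in any interval in `[1, X]` is at most `X ^ (1 / 2 + δ)` in absolute value.

The values of such functions are taken with very large multiplicities, and are not values at all for most integers; so this
does not follow from the number `O(T ^ (2 - 2 κ A + ε))` of the exceptional pairs `(m_0, m_1)` up to `T` (starting result
`FewDigitCubicCharacters`). Proof: such functions avoid sets of tuples with a power saving (tool of helper733); the
exceptional pairs together with their windows are such a set.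
-/

set_option autoImplicit false

namespace Pool.Agent.Results.MP_081200_nt.MultiplicativeValues

open Pool.Agent.N733.TG (LM lm_totient lm_sigma keep_tuples2)
open Pool.Agent.N760.SC (count_near NearTuple)
open Pool.Agent.Results.MP_081200_nt.GenericLinearForms (SmallSums)
open Pool.Agent.L7h69.CS (thin_pairs)

/-- **Cubic residue symbols near the values of multiplicative functions.** For `δ > 0` and `A ≥ 0` there is `c > 0` such that
for every `κ > 0` with `κ A ≤ 1`, multiplicative functions `F_0`, `F_1` with `LM`, every `θ` with `0 ≤ θ < κ A` and every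
`U`, for all large `N` and all but at most `N ^ 2 / (log N) ^ U` of the pairs `(a_0, a_1)` of integers in `[1, N]`, ALL pairs
`m` of natural numbers with `|m_l - F_l(a_l)| ≤ F_l(a_l) ^ θ`, `l = 0, 1`, satisfy `SmallSums δ κ c A m`. Euler's function and
the sum of the divisors satisfy `LM`. -/
theorem result :
    (∀ δ : ℝ, 0 < δ → ∀ A : ℕ, ∃ c : ℝ, 0 < c ∧ ∀ κ : ℝ, 0 < κ → κ * A ≤ 1 →
      ∀ F : Fin 2 → ℕ → ℕ, (∀ l, LM (F l)) → ∀ θ : ℝ, 0 ≤ θ → θ < κ * A → ∀ U : ℕ, ∃ N₀ : ℕ, ∀ N : ℕ, N₀ ≤ N →
        ({a : Fin 2 → ℕ | (∀ l, 1 ≤ a l ∧ a l ≤ N) ∧ ¬ ∀ m : Fin 2 → ℕ,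
          (∀ l, |(m l : ℝ) - F l (a l)| ≤ (F l (a l) : ℝ) ^ θ) → SmallSums δ κ c A m}.ncard : ℝ) ≤
            (N : ℝ) ^ 2 / Real.log N ^ U) ∧
    LM Nat.totient ∧ LM (fun m => ∑ d ∈ m.divisors, d) := by
  refine ⟨fun δ hδ A => ?_, lm_totient, lm_sigma⟩
  obtain ⟨c, hc, h⟩ := thin_pairs hδ A
  refine ⟨c, hc, fun κ hκ hκA F hF θ hθ hθκ U => ?_⟩
  obtain ⟨C, hC, hcount⟩ := h κ hκ hκA (κ * A - θ) (by linarith)
  obtain ⟨C₁, h2⟩ := count_near {m : Fin 2 → ℕ | ¬ SmallSums δ κ c A m} (ρ := 2 - 2 * (κ * A) + (κ * A - θ)) (θ := θ)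
    (by linarith) hθ (by linarith) hC (fun X hX => (hcount X (by exact_mod_cast hX)).2.trans' (le_of_eq (by
      congr 2
      ext m
      simp only [Set.mem_ofPred_eq, Nat.cast_le])))
  obtain ⟨N₀, hN₀⟩ := keep_tuples2 (k := 2) (by norm_num) hF (c := κ * A - θ) (by linarith) U C₁
  refine ⟨N₀, fun N hN => ?_⟩
  have h3 := hN₀ N hN (NearTuple {m : Fin 2 → ℕ | ¬ SmallSums δ κ c A m} θ) (fun X hX => by
    refine (h2 X hX).trans (le_of_eq ?_)
    congr 2
    push_cast
    ring)
  refine le_trans ?_ h3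
  have hfin : {m : Fin 2 → ℕ | (∀ i, 1 ≤ m i ∧ m i ≤ N) ∧ ¬ ((∀ i, 2 ≤ F i (m i)) ∧
      (fun i => F i (m i)) ∉ NearTuple {m : Fin 2 → ℕ | ¬ SmallSums δ κ c A m} θ)}.Finite := by
    refine (Set.Finite.pi' (t := fun _ : Fin 2 => Set.Icc 1 N) fun _ => Set.finite_Icc _ _).subset ?_
    intro m hm i
    exact hm.1 i
  refine Nat.cast_le.2 (Set.ncard_le_ncard ?_ hfin)
  rintro m ⟨g1, g2⟩
  refine ⟨g1, fun g3 => g2 fun s hw => ?_⟩
  by_contra hP
  exact g3.2 ⟨s, hP, hw⟩

end Pool.Agent.Results.MP_081200_nt.MultiplicativeValues
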